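import Mathlib

set_option autoImplicit false

namespace Pool.Agent.Q19.MLR

/-- `‖x‖ ≥ c`, the distance of `x` to the nearest integer is at least `c`. -/
def Good (x c : ℝ) : Prop := ∀ m : ℤ, c ≤ |x - m|

theorem good_of_mem {x c : ℝ} (M : ℤ) (h1 : (M : ℝ) + c ≤ x) (h2 : x ≤ M + 1 - c) : Good x c := by
  intro m
  rcases le_or_gt m M with h | h
  · have : (m : ℝ) ≤ M := by exact_mod_cast h
    exact le_trans (by linarith) (le_abs_self _)
  · have : (M : ℝ) + 1 ≤ m := by exact_mod_cast h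
    have h3 := neg_abs_le (x - m)
    linarith

theorem Good.add_int {x c : ℝ} (h : Good x c) (n : ℤ) : Good (x + n) c := by
  intro m
  have := h (m - n)
  have e : x - ((m - n : ℤ) : ℝ) = x + n - m := by push_cast; ring
  rwa [e] at this

theorem Good.neg {x c : ℝ} (h : Good x c) : Good (-x) c := by
  intro m
  have := h (-m)
  have e : x - ((-m : ℤ) : ℝ) = -(-x - m) := by push_cast; ring
  rwa [e, abs_neg] at this

theorem Good.mono {x c d : ℝ} (h : Good x c) (hd : d ≤ c) : Good x d := fun m => hd.trans (h m)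

/-- an interval of length at least `2 c` contains a good point -/
theorem interval {α β c : ℝ} (hc : c ≤ 1 / 2) (hc0 : 0 ≤ c) (h : 2 * c ≤ β - α) :
    ∃ x, α ≤ x ∧ x ≤ β ∧ Good x c := by
  by_cases hg : Good α c
  · exact ⟨α, le_refl _, by linarith, hg⟩
  · unfold Good at hg
    push Not at hg
    obtain ⟨M, hM⟩ := hg
    rw [abs_lt] at hM
    exact ⟨M + c, by linarith, by linarith, good_of_mem M (by linarith) (by linarith)⟩

/-- Bezout -/
theorem bezout {a m : ℕ} (h : Nat.Coprime a m) (i : ℤ) : ∃ j n : ℤ, (a : ℤ) * j = i + n * m := by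
  have h1 : IsCoprime (a : ℤ) (m : ℤ) := Nat.isCoprime_iff_coprime.2 h
  obtain ⟨u, v, huv⟩ := h1
  refine ⟨u * i, -(v * i), ?_⟩
  linear_combination i * huv

/-- rotating one runner -/
theorem rot {a m : ℕ} (hm : 2 ≤ m) (h : Nat.Coprime a m) {c : ℝ} (hc : c ≤ 1 / 4) (t : ℝ) :
    ∃ j : ℤ, Good (a * (t + j / m)) c := by
  have hm0 : (0 : ℝ) < m := by positivity
  have hm2 : (2 : ℝ) ≤ m := by exact_mod_cast hm
  set i : ℤ := ⌈(c - a * t) * m⌉ with hi
  obtain ⟨j, n, hj⟩ := bezout h i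
  refine ⟨j, ?_⟩
  have e : (a : ℝ) * (t + j / m) = (a * t + i / m) + n := by
    have : ((a : ℤ) : ℝ) * j = i + n * m := by exact_mod_cast hj
    field_simp
    push_cast at this
    linear_combination this
  rw [e]
  apply Good.add_int
  have h1 : (c - a * t) * m ≤ i := Int.le_ceil _
  have h2 : (i : ℝ) < (c - a * t) * m + 1 := Int.ceil_lt_add_one _
  have h3 : c - a * t ≤ i / m := by rwa [le_div_iff₀ hm0]
  have h4 : (i : ℝ) / m < c - a * t + 1 / m := by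
    rw [div_lt_iff₀ hm0]
    have : (c - a * t + 1 / m) * m = (c - a * t) * m + 1 := by field_simp
    linarith
  have h5 : (1 : ℝ) / m ≤ 1 / 2 := one_div_le_one_div_of_le (by norm_num) hm2
  apply good_of_mem 0
  · push_cast; linarith
  · push_cast; linarith

/-- two runners, coprime speeds -/
theorem two_coprime {u v : ℕ} (hu : 0 < u) (hv : 0 < v) (huv : u ≠ v) (h : Nat.Coprime u v)
    {c₁ c₂ : ℝ} (h0 : 0 ≤ c₁) (h2 : 0 ≤ c₂) (h1 : 2 * c₁ + c₂ ≤ 1) (hc : c₂ ≤ 1 / 4) :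
    ∃ t : ℝ, Good (u * t) c₁ ∧ Good (v * t) c₂ := by
  rcases Nat.lt_or_ge 1 u with hu1 | hu1
  · have hu0 : (u : ℝ) ≠ 0 := by positivity
    obtain ⟨j, hj⟩ := rot hu1 h.symm hc (1 / (2 * u))
    refine ⟨_, ?_, hj⟩
    have e : (u : ℝ) * (1 / (2 * u) + j / u) = 1 / 2 + j := by
      field_simp
    rw [e]
    apply Good.add_int
    apply good_of_mem 0 <;> push_cast <;> linarith
  · have hu2 : u = 1 := by omega
    subst hu2
    have hv2 : (2 : ℝ) ≤ v := by exact_mod_cast (by omega : 2 ≤ v)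
    obtain ⟨x, hx1, hx2, hx3⟩ := interval (α := v * c₁) (β := v * (1 - c₁)) (c := c₂)
      (by linarith) h2 (by nlinarith)
    have hv0 : (0 : ℝ) < v := by linarith
    refine ⟨x / v, ?_, ?_⟩
    · apply good_of_mem 0
      · push_cast
        rw [zero_add, one_mul, le_div_iff₀ hv0]
        linarith
      · push_cast
        rw [zero_add, one_mul, div_le_iff₀ hv0]
        linarith
    · rw [mul_div_cancel₀ _ hv0.ne']
      exact hx3

/-- scaling -/
theorem scale3 {a b c g : ℕ} (hg : 0 < g) {c₁ c₂ c₃ : ℝ}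
    (h : ∃ t : ℝ, Good (a * t) c₁ ∧ Good (b * t) c₂ ∧ Good (c * t) c₃) :
    ∃ t : ℝ, Good ((g * a : ℕ) * t) c₁ ∧ Good ((g * b : ℕ) * t) c₂ ∧ Good ((g * c : ℕ) * t) c₃ := by
  obtain ⟨t, h1, h2, h3⟩ := h
  have hg0 : (g : ℝ) ≠ 0 := by positivity
  refine ⟨t / g, ?_, ?_, ?_⟩
  · convert h1 using 1; push_cast; field_simp
  · convert h2 using 1; push_cast; field_simp
  · convert h3 using 1; push_cast; field_simp

theorem scale2 {a b g : ℕ} (hg : 0 < g) {c₁ c₂ : ℝ}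
    (h : ∃ t : ℝ, Good (a * t) c₁ ∧ Good (b * t) c₂) :
    ∃ t : ℝ, Good ((g * a : ℕ) * t) c₁ ∧ Good ((g * b : ℕ) * t) c₂ := by
  obtain ⟨t, h1, h2⟩ := h
  have hg0 : (g : ℝ) ≠ 0 := by positivity
  refine ⟨t / g, ?_, ?_⟩
  · convert h1 using 1; push_cast; field_simp
  · convert h2 using 1; push_cast; field_simp

theorem two {u v : ℕ} (hu : 0 < u) (hv : 0 < v) (huv : u ≠ v)
    {c₁ c₂ : ℝ} (h0 : 0 ≤ c₁) (h2 : 0 ≤ c₂) (h1 : 2 * c₁ + c₂ ≤ 1) (hc : c₂ ≤ 1 / 4) :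
    ∃ t : ℝ, Good (u * t) c₁ ∧ Good (v * t) c₂ := by
  obtain ⟨g, hg, hgpos⟩ : ∃ g, g = Nat.gcd u v ∧ 0 < g := ⟨_, rfl, Nat.gcd_pos_of_pos_left _ hu⟩
  obtain ⟨u', v', hcop, hu', hv'⟩ := Nat.exists_coprime u v
  rw [← hg] at hu' hv'
  have hu0 : 0 < u' := by
    rcases Nat.eq_zero_or_pos u' with h | h
    · rw [h] at hu'; omega
    · exact h
  have hv0 : 0 < v' := by
    rcases Nat.eq_zero_or_pos v' with h | h
    · rw [h] at hv'; omega
    · exact h
  have hne : u' ≠ v' := by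
    intro h
    apply huv
    rw [hu', hv', h]
  have h3 := scale2 hgpos (two_coprime hu0 hv0 hne hcop h0 h2 h1 hc)
  rw [mul_comm g u', mul_comm g v', ← hu', ← hv'] at h3
  exact h3

/-- two speeds with a common factor prime to the third -/
theorem common {a b c : ℕ} (ha : 0 < a) (hb : 0 < b) (hab : a ≠ b)
    (hg : 2 ≤ Nat.gcd a b) (hc : Nat.Coprime c (Nat.gcd a b)) {c₁ c₂ c₃ : ℝ}
    (h0 : 0 ≤ c₁) (h2 : 0 ≤ c₂) (h1 : 2 * c₁ + c₂ ≤ 1) (hc2 : c₂ ≤ 1 / 4) (hc3 : c₃ ≤ 1 / 4) :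
    ∃ t : ℝ, Good (a * t) c₁ ∧ Good (b * t) c₂ ∧ Good (c * t) c₃ := by
  obtain ⟨t, ht1, ht2⟩ := two ha hb hab h0 h2 h1 hc2
  obtain ⟨j, hj⟩ := rot hg hc hc3 t
  obtain ⟨a', ha'⟩ := Nat.gcd_dvd_left a b
  obtain ⟨b', hb'⟩ := Nat.gcd_dvd_right a b
  set g := Nat.gcd a b
  have hg0 : (g : ℝ) ≠ 0 := by positivity
  refine ⟨_, ?_, ?_, hj⟩
  · have e : (a : ℝ) * (t + j / g) = a * t + ((a' * j : ℤ) : ℝ) := by
      have h : (a : ℝ) = g * a' := by exact_mod_cast ha'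
      push_cast
      rw [mul_add, h]
      field_simp
    rw [e]
    exact ht1.add_int _
  · have e : (b : ℝ) * (t + j / g) = b * t + ((b' * j : ℤ) : ℝ) := by
      have h : (b : ℝ) = g * b' := by exact_mod_cast hb'
      push_cast
      rw [mul_add, h]
      field_simp
    rw [e]
    exact ht2.add_int _

end Pool.Agent.Q19.MLR
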