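import Mathlib
import Pool.Agent.Q19.MLR.Basic

set_option autoImplicit false

namespace Pool.Agent.Q19.MLR

/-- counting bad rotations -/
theorem card_bad {m u : ℕ} (hm : 0 < m) (h : Nat.Coprime u m) (y : ℝ) (B : Finset ℕ)
    (hB : B ⊆ Finset.range m) (hbad : ∀ j ∈ B, ¬ Good (y + u * j / m) (1 / 5)) :
    5 * B.card < 2 * m + 5 := by
  have hm0 : (0 : ℝ) < m := by exact_mod_cast hm
  have hM : ∀ j ∈ B, ∃ M : ℤ, |y + u * j / m - M| < 1 / 5 := by
    intro j hj
    have := hbad j hj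
    unfold Good at this
    push Not at this
    exact this
  choose! M hM using hM
  set α : ℝ := -(m * y) - m / 5 with hα
  set β : ℝ := -(m * y) + m / 5 with hβ
  have hmap : ∀ j ∈ B, ((u : ℤ) * j - m * M j) ∈ Finset.Icc (⌊α⌋ + 1) (⌈β⌉ - 1) := by
    intro j hj
    have h1 := hM j hj
    have h2 : |m * y + (((u : ℤ) * j - m * M j : ℤ) : ℝ)| < m / 5 := by
      have e : m * y + (((u : ℤ) * j - m * M j : ℤ) : ℝ) = m * (y + u * j / m - M j) := by
        push_cast
        field_simp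
        ring
      rw [e, abs_mul, abs_of_pos hm0]
      calc (m : ℝ) * |y + u * j / m - M j| < m * (1 / 5) := mul_lt_mul_of_pos_left h1 hm0
        _ = m / 5 := by ring
    rw [abs_lt] at h2
    rw [Finset.mem_Icc]
    constructor
    · rw [Int.add_one_le_iff, Int.floor_lt]
      rw [hα]; linarith [h2.1]
    · rw [Int.le_sub_one_iff, Int.lt_ceil]
      rw [hβ]; linarith [h2.2]
  have hinj : Set.InjOn (fun j : ℕ => ((u : ℤ) * j - m * M j)) (B : Set ℕ) := by
    intro j hj j' hj' he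
    simp only at he
    have h1 : (m : ℤ) ∣ u * ((j : ℤ) - j') := ⟨M j - M j', by linear_combination he⟩
    have h2 : IsCoprime (m : ℤ) (u : ℤ) := (Nat.isCoprime_iff_coprime.2 h).symm
    have h3 : (m : ℤ) ∣ (j : ℤ) - j' := h2.dvd_of_dvd_mul_left h1
    have h4 : j < m := Finset.mem_range.1 (hB hj)
    have h5 : j' < m := Finset.mem_range.1 (hB hj')
    have h6 : (j : ℤ) - j' = 0 := by
      apply Int.eq_zero_of_abs_lt_dvd h3
      rw [abs_lt]
      constructor <;> omega
    omega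
  have hcard := Finset.card_le_card_of_injOn (fun j : ℕ => ((u : ℤ) * j - m * M j))
    (s := B) (t := Finset.Icc (⌊α⌋ + 1) (⌈β⌉ - 1)) (fun j hj => hmap j hj) hinj
  rw [Int.card_Icc] at hcard
  have h1 : (⌈β⌉ : ℝ) < β + 1 := Int.ceil_lt_add_one _
  have h2 : α < ⌊α⌋ + 1 := Int.lt_floor_add_one _
  rcases Nat.eq_zero_or_pos B.card with h0 | h0
  · omega
  · have h3 : (B.card : ℤ) ≤ ⌈β⌉ - 1 + 1 - (⌊α⌋ + 1) := by omega
    have h4 : (B.card : ℝ) ≤ ⌈β⌉ - ⌊α⌋ - 1 := by
      have : (B.card : ℝ) ≤ ((⌈β⌉ - 1 + 1 - (⌊α⌋ + 1) : ℤ) : ℝ) := by exact_mod_cast h3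
      push_cast at this
      linarith
    have h5 : (5 * B.card : ℝ) < 2 * m + 5 := by
      have : β - α = 2 * m / 5 := by rw [hα, hβ]; ring
      linarith
    exact_mod_cast h5

/-- rotating two runners at once -/
theorem rot2 {m u v : ℕ} (hm : 5 ≤ m) (h6 : m ≠ 6) (h8 : m ≠ 8) (hu : Nat.Coprime u m)
    (hv : Nat.Coprime v m) (y z : ℝ) :
    ∃ j : ℕ, Good (y + u * j / m) (1 / 5) ∧ Good (z + v * j / m) (1 / 5) := by
  classical
  by_contra hcon
  push Not at hcon
  have h1 := card_bad (by omega : 0 < m) hu y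
    ((Finset.range m).filter fun j => ¬ Good (y + u * j / m) (1 / 5)) (Finset.filter_subset _ _)
    (fun j hj => (Finset.mem_filter.1 hj).2)
  have h2 := card_bad (by omega : 0 < m) hv z
    ((Finset.range m).filter fun j => ¬ Good (z + v * j / m) (1 / 5)) (Finset.filter_subset _ _)
    (fun j hj => (Finset.mem_filter.1 hj).2)
  have h3 : Finset.range m ⊆
      ((Finset.range m).filter fun j => ¬ Good (y + u * j / m) (1 / 5)) ∪
      ((Finset.range m).filter fun j => ¬ Good (z + v * j / m) (1 / 5)) := by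
    intro j hj
    rw [Finset.mem_union, Finset.mem_filter, Finset.mem_filter]
    by_cases hg : Good (y + u * j / m) (1 / 5)
    · exact Or.inr ⟨hj, hcon j hg⟩
    · exact Or.inl ⟨hj, hg⟩
  have h4 := (Finset.card_le_card h3).trans (Finset.card_union_le _ _)
  rw [Finset.card_range] at h4
  omega

/-- a component of the good set of the first two runners -/
theorem comp {a b c : ℕ} (ha : 0 < a) (hb : 0 < b) (hc : 0 < c) (p q j n : ℕ)
    (h1 : b * (20 * j + 7) ≤ p) (h2 : q ≤ b * (20 * j + 13)) (h3 : a * (20 * n + 4) ≤ p)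
    (h4 : q ≤ a * (20 * n + 16)) (h5 : 8 * a * b ≤ (q - p) * c) :
    ∃ t : ℝ, Good (a * t) (7 / 20) ∧ Good (b * t) (1 / 5) ∧ Good (c * t) (1 / 5) := by
  have hpq : p ≤ q := by
    by_contra hpq
    have : q - p = 0 := by omega
    rw [this] at h5
    have : 0 < 8 * a * b := by positivity
    omega
  have ha' : (0 : ℝ) < a := by exact_mod_cast ha
  have hb' : (0 : ℝ) < b := by exact_mod_cast hb
  have hc' : (0 : ℝ) < c := by exact_mod_cast hc
  have h1' : (b : ℝ) * (20 * j + 7) ≤ p := by exact_mod_cast h1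
  have h2' : (q : ℝ) ≤ b * (20 * j + 13) := by exact_mod_cast h2
  have h3' : (a : ℝ) * (20 * n + 4) ≤ p := by exact_mod_cast h3
  have h4' : (q : ℝ) ≤ a * (20 * n + 16) := by exact_mod_cast h4
  have h5' : (8 : ℝ) * a * b ≤ (q - p) * c := by
    have : ((8 * a * b : ℕ) : ℝ) ≤ (((q - p) * c : ℕ) : ℝ) := by exact_mod_cast h5
    push_cast [Nat.cast_sub hpq] at this
    exact this
  obtain ⟨x, hx1, hx2, hx3⟩ := interval (α := c * p / (20 * a * b)) (β := c * q / (20 * a * b))
    (c := 1 / 5) (by norm_num) (by norm_num) (by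
      rw [← sub_div, le_div_iff₀ (by positivity)]
      linarith)
  rw [div_le_iff₀ (by positivity)] at hx1
  rw [le_div_iff₀ (by positivity)] at hx2
  refine ⟨x / c, ?_, ?_, ?_⟩
  · apply good_of_mem j
    · push_cast
      rw [← mul_div_assoc, le_div_iff₀ hc']
      have : (b : ℝ) * ((j + 7 / 20) * c) ≤ b * (a * x) := by nlinarith
      exact le_of_mul_le_mul_left this hb'
    · push_cast
      rw [← mul_div_assoc, div_le_iff₀ hc']
      have : (b : ℝ) * (a * x) ≤ b * ((j + 1 - 7 / 20) * c) := by nlinarith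
      exact le_of_mul_le_mul_left this hb'
  · apply good_of_mem n
    · push_cast
      rw [← mul_div_assoc, le_div_iff₀ hc']
      have : (a : ℝ) * ((n + 1 / 5) * c) ≤ a * (b * x) := by nlinarith
      exact le_of_mul_le_mul_left this ha'
    · push_cast
      rw [← mul_div_assoc, div_le_iff₀ hc']
      have : (a : ℝ) * (b * x) ≤ a * ((n + 1 - 1 / 5) * c) := by nlinarith
      exact le_of_mul_le_mul_left this ha'
  · rw [mul_div_cancel₀ _ hc'.ne']
    exact hx3

theorem good_mod {k x D : ℕ} (hD : 0 < D) {c : ℝ} (h1 : c * D ≤ ((k * x % D : ℕ) : ℝ))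
    (h2 : ((k * x % D : ℕ) : ℝ) ≤ (1 - c) * D) : Good (k * (x / D : ℝ)) c := by
  have hD' : (0 : ℝ) < D := by exact_mod_cast hD
  have e : (k : ℝ) * x = D * ((k * x / D : ℕ) : ℝ) + ((k * x % D : ℕ) : ℝ) := by
    have := (Nat.div_add_mod (k * x) D).symm
    exact_mod_cast this
  apply good_of_mem ((k * x / D : ℕ) : ℤ)
  · rw [← mul_div_assoc, le_div_iff₀ hD', e, Int.cast_natCast]
    linarith
  · rw [← mul_div_assoc, div_le_iff₀ hD', e, Int.cast_natCast]
    linarith

def chk (a b c : ℕ) : Bool := (List.range a).any fun j => (List.range (b + 1)).any fun n =>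
  decide (8 * a * b ≤ (min (b * (20 * j + 13)) (a * (20 * n + 16)) -
    max (b * (20 * j + 7)) (a * (20 * n + 4))) * c)

def chk3 (a b c : ℕ) : Bool := (List.range 15).any fun D => (List.range D).any fun x =>
  decide (7 * D ≤ 20 * (a * x % D)) && decide (20 * (a * x % D) ≤ 13 * D) &&
  decide (D ≤ 5 * (b * x % D)) && decide (5 * (b * x % D) ≤ 4 * D) &&
  decide (D ≤ 5 * (c * x % D)) && decide (5 * (c * x % D) ≤ 4 * D)

def tab : Bool := [1, 2, 3, 4, 6, 8].all fun a => (List.range 43).all fun b =>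
  (b == 0) || !(Nat.gcd a b == 1) || (a == b) || chk a b (b + 1) ||
    (chk a b 11 && (List.range 11).all fun c =>
      decide (c ≤ b) || !(Nat.gcd a c == 1) || (c == a) || chk3 a b c)

theorem tab_true : tab = true := by decide +kernel

theorem of_chk {a b c c' : ℕ} (ha : 0 < a) (hb : 0 < b) (hc : 0 < c) (hcc : c ≤ c')
    (h : chk a b c = true) :
    ∃ t : ℝ, Good (a * t) (7 / 20) ∧ Good (b * t) (1 / 5) ∧ Good (c' * t) (1 / 5) := by
  unfold chk at h
  rw [List.any_eq_true] at h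
  obtain ⟨j, -, h⟩ := h
  rw [List.any_eq_true] at h
  obtain ⟨n, -, h⟩ := h
  rw [decide_eq_true_eq] at h
  exact comp ha hb (by omega) _ _ j n (le_max_left _ _) (min_le_left _ _) (le_max_right _ _)
    (min_le_right _ _) (h.trans (Nat.mul_le_mul_left _ hcc))

theorem of_chk3 {a b c : ℕ} (h : chk3 a b c = true) :
    ∃ t : ℝ, Good (a * t) (7 / 20) ∧ Good (b * t) (1 / 5) ∧ Good (c * t) (1 / 5) := by
  unfold chk3 at h
  rw [List.any_eq_true] at h
  obtain ⟨D, -, h⟩ := h
  rw [List.any_eq_true] at h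
  obtain ⟨x, hx, h⟩ := h
  rw [List.mem_range] at hx
  simp only [Bool.and_eq_true, decide_eq_true_eq] at h
  obtain ⟨⟨⟨⟨⟨h1, h2⟩, h3⟩, h4⟩, h5⟩, h6⟩ := h
  have hD : 0 < D := by omega
  have h1' : (7 : ℝ) * D ≤ 20 * ((a * x % D : ℕ) : ℝ) := by exact_mod_cast h1
  have h2' : 20 * ((a * x % D : ℕ) : ℝ) ≤ 13 * D := by exact_mod_cast h2
  have h3' : (D : ℝ) ≤ 5 * ((b * x % D : ℕ) : ℝ) := by exact_mod_cast h3
  have h4' : 5 * ((b * x % D : ℕ) : ℝ) ≤ 4 * D := by exact_mod_cast h4
  have h5' : (D : ℝ) ≤ 5 * ((c * x % D : ℕ) : ℝ) := by exact_mod_cast h5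
  have h6' : 5 * ((c * x % D : ℕ) : ℝ) ≤ 4 * D := by exact_mod_cast h6
  exact ⟨x / D, good_mod hD (by linarith) (by linarith), good_mod hD (by linarith) (by linarith),
    good_mod hD (by linarith) (by linarith)⟩

/-- small first speed -/
theorem small {a b c : ℕ} (ha : a = 1 ∨ a = 2 ∨ a = 3 ∨ a = 4 ∨ a = 6 ∨ a = 8) (hb : 0 < b)
    (hbc : b < c) (hab : Nat.Coprime a b) (hac : Nat.Coprime a c) (h1 : a ≠ b) (h2 : a ≠ c) :
    ∃ t : ℝ, Good (a * t) (7 / 20) ∧ Good (b * t) (1 / 5) ∧ Good (c * t) (1 / 5) := by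
  have ha0 : 0 < a := by omega
  rcases Nat.lt_or_ge (3 * b) (16 * a) with hs | hs
  · have ht := tab_true
    unfold tab at ht
    rw [List.all_eq_true] at ht
    have ht := ht a (by simp; exact ha)
    rw [List.all_eq_true] at ht
    have ht := ht b (by rw [List.mem_range]; omega)
    simp only [Bool.or_eq_true, Bool.and_eq_true, Bool.not_eq_true', beq_iff_eq,
      beq_eq_false_iff_ne] at ht
    rcases ht with (((ht | ht) | ht) | ht) | ht
    · omega
    · exact absurd hab ht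
    · exact absurd ht h1
    · exact of_chk ha0 hb (by omega) hbc ht
    · obtain ⟨ht1, ht2⟩ := ht
      rcases Nat.lt_or_ge c 11 with hc | hc
      · rw [List.all_eq_true] at ht2
        have ht := ht2 c (by rw [List.mem_range]; omega)
        simp only [Bool.or_eq_true, Bool.not_eq_true', beq_iff_eq,
          beq_eq_false_iff_ne, decide_eq_true_eq] at ht
        rcases ht with ((ht | ht) | ht) | ht
        · omega
        · exact absurd hac ht
        · exact absurd ht.symm h2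
        · exact of_chk3 ht
      · exact of_chk ha0 hb (by norm_num) hc ht1
  · -- large b: a complete good interval of the second runner
    obtain ⟨n, hn1, hn2⟩ : ∃ n : ℕ, 7 * b ≤ a * (20 * n + 4) ∧ a * (20 * n + 4) < 7 * b + 20 * a := by
      refine ⟨(7 * b + 16 * a - 1) / (20 * a), ?_, ?_⟩
      · have h3 := Nat.lt_div_mul_add (a := 7 * b + 16 * a - 1) (b := 20 * a) (by omega)
        have h4 : (7 * b + 16 * a - 1) / (20 * a) * (20 * a) =
          a * (20 * ((7 * b + 16 * a - 1) / (20 * a))) := by ring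
        rw [h4] at h3
        rw [mul_add]
        omega
      · have h3 := Nat.div_mul_le_self (7 * b + 16 * a - 1) (20 * a)
        have h4 : (7 * b + 16 * a - 1) / (20 * a) * (20 * a) =
          a * (20 * ((7 * b + 16 * a - 1) / (20 * a))) := by ring
        rw [h4] at h3
        rw [mul_add]
        omega
    refine comp ha0 hb (by omega) (a * (20 * n + 4)) (a * (20 * n + 16)) 0 n ?_ ?_ (le_refl _)
      (le_refl _) ?_
    · omega
    · have : a * (20 * n + 16) = a * (20 * n + 4) + 12 * a := by ring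
      omega
    · have : a * (20 * n + 16) - a * (20 * n + 4) = 12 * a := by
        have : a * (20 * n + 16) = a * (20 * n + 4) + 12 * a := by ring
        omega
      rw [this]
      nlinarith

theorem coprime_case {a b c : ℕ} (ha : 0 < a) (hb : 0 < b) (hc : 0 < c) (hab' : a ≠ b)
    (hac' : a ≠ c) (hbc : b ≠ c) (hab : Nat.Coprime a b) (hac : Nat.Coprime a c) :
    ∃ t : ℝ, Good (a * t) (7 / 20) ∧ Good (b * t) (1 / 5) ∧ Good (c * t) (1 / 5) := by
  by_cases hs : a = 1 ∨ a = 2 ∨ a = 3 ∨ a = 4 ∨ a = 6 ∨ a = 8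
  · rcases Nat.lt_or_gt_of_ne hbc with h | h
    · exact small hs hb h hab hac hab' hac'
    · obtain ⟨t, h1, h2, h3⟩ := small hs hc h hac hab hac' hab'
      exact ⟨t, h1, h3, h2⟩
  · have ha0 : (a : ℝ) ≠ 0 := by positivity
    obtain ⟨j, h1, h2⟩ := rot2 (m := a) (u := b) (v := c) (by omega) (by omega) (by omega)
      hab.symm hac.symm (b * (1 / (2 * a))) (c * (1 / (2 * a)))
    refine ⟨1 / (2 * a) + j / a, ?_, ?_, ?_⟩
    · have e : (a : ℝ) * (1 / (2 * a) + j / a) = 1 / 2 + (j : ℤ) := by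
        push_cast
        field_simp
      rw [e]
      apply Good.add_int
      apply good_of_mem 0 <;> push_cast <;> norm_num
    · have e : (b : ℝ) * (1 / (2 * a) + j / a) = b * (1 / (2 * a)) + b * j / a := by ring
      rw [e]; exact h1
    · have e : (c : ℝ) * (1 / (2 * a) + j / a) = c * (1 / (2 * a)) + c * j / a := by ring
      rw [e]; exact h2

theorem exists_scale {a b c : ℕ} (ha : 0 < a) (hb : 0 < b) (hc : 0 < c) :
    ∃ g a' b' c' : ℕ, 0 < g ∧ a = g * a' ∧ b = g * b' ∧ c = g * c' ∧ 0 < a' ∧ 0 < b' ∧ 0 < c' ∧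
      Nat.gcd (Nat.gcd a' b') c' = 1 := by
  set g := Nat.gcd (Nat.gcd a b) c with hg
  have hgpos : 0 < g := Nat.gcd_pos_of_pos_right _ hc
  obtain ⟨a', ha'⟩ : g ∣ a := (Nat.gcd_dvd_left _ _).trans (Nat.gcd_dvd_left _ _)
  obtain ⟨b', hb'⟩ : g ∣ b := (Nat.gcd_dvd_left _ _).trans (Nat.gcd_dvd_right _ _)
  obtain ⟨c', hc'⟩ : g ∣ c := Nat.gcd_dvd_right _ _
  refine ⟨g, a', b', c', hgpos, ha', hb', hc', ?_, ?_, ?_, ?_⟩
  · rcases Nat.eq_zero_or_pos a' with h | h
    · rw [h] at ha'; omega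
    · exact h
  · rcases Nat.eq_zero_or_pos b' with h | h
    · rw [h] at hb'; omega
    · exact h
  · rcases Nat.eq_zero_or_pos c' with h | h
    · rw [h] at hc'; omega
    · exact h
  · have h1 : g * Nat.gcd (Nat.gcd a' b') c' = g * 1 := by
      rw [← Nat.gcd_mul_left, ← Nat.gcd_mul_left, ← ha', ← hb', ← hc', mul_one]
    exact Nat.eq_of_mul_eq_mul_left hgpos h1

/-- the point `(7/20, 1/5, 1/5)` -/
theorem pointP {a b c : ℕ} (ha : 0 < a) (hb : 0 < b) (hc : 0 < c) (hab : a ≠ b)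
    (hac : a ≠ c) (hbc : b ≠ c) :
    ∃ t : ℝ, Good (a * t) (7 / 20) ∧ Good (b * t) (1 / 5) ∧ Good (c * t) (1 / 5) := by
  obtain ⟨g, a', b', c', hg, rfl, rfl, rfl, ha', hb', hc', hgcd⟩ := exists_scale ha hb hc
  apply scale3 hg
  have hab' : a' ≠ b' := fun h => hab (by rw [h])
  have hac' : a' ≠ c' := fun h => hac (by rw [h])
  have hbc' : b' ≠ c' := fun h => hbc (by rw [h])
  by_cases h1 : Nat.gcd a' b' = 1
  · by_cases h2 : Nat.gcd a' c' = 1
    · exact coprime_case ha' hb' hc' hab' hac' hbc' h1 h2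
    · have h3 : 2 ≤ Nat.gcd a' c' := by
        have := Nat.gcd_pos_of_pos_left c' ha'
        omega
      have h4 : Nat.Coprime b' (Nat.gcd a' c') := by
        have : Nat.Coprime b' a' := (Nat.Coprime.symm h1)
        exact Nat.Coprime.coprime_dvd_right (Nat.gcd_dvd_left _ _) this
      obtain ⟨t, h5, h6, h7⟩ := common ha' hc' hac' h3 h4 (c₁ := 7 / 20) (c₂ := 1 / 5)
        (c₃ := 1 / 5) (by norm_num) (by norm_num) (by norm_num) (by norm_num) (by norm_num)
      exact ⟨t, h5, h7, h6⟩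
  · have h3 : 2 ≤ Nat.gcd a' b' := by
      have := Nat.gcd_pos_of_pos_left b' ha'
      omega
    have h4 : Nat.Coprime c' (Nat.gcd a' b') := by
      rw [Nat.coprime_comm]; exact hgcd
    exact common ha' hb' hab' h3 h4 (by norm_num) (by norm_num) (by norm_num) (by norm_num)
      (by norm_num)

end Pool.Agent.Q19.MLR
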