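import Mathlib
import Pool.Agent.Q19.MLR.P

set_option autoImplicit false

namespace Pool.Agent.Q19.MLR

/-- near a half-integer: for `u` odd and `t = 1/2 + x` -/
theorem good_half {u : ℕ} (hu : Odd u) {x y : ℝ} (n : ℤ) (hx : (u : ℝ) * x = n + y)
    (hy : |y| ≤ 1 / 4) : Good (u * (1 / 2 + x)) (1 / 4) := by
  obtain ⟨k, hk⟩ := hu
  rw [abs_le] at hy
  have e : (u : ℝ) * (1 / 2 + x) = k + n + 1 / 2 + y := by
    rw [mul_add, hx, hk]; push_cast; ring
  rw [e]
  apply good_of_mem ((k : ℤ) + n)
  · push_cast; linarith [hy.1]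
  · push_cast; linarith [hy.2]

theorem good_even {e : ℕ} (he : Even e) {x : ℝ} (h : Good (e * x) (1 / 4)) :
    Good (e * (1 / 2 + x)) (1 / 4) := by
  obtain ⟨k, hk⟩ := he
  have e : (e : ℝ) * (1 / 2 + x) = e * x + (k : ℤ) := by
    rw [mul_add, hk]; push_cast; ring
  rw [e]
  exact h.add_int _

/-- the case `e + u = v` -/
theorem sum_case {u e : ℕ} (hu : Odd u) (he : Even e) (he0 : 0 < e) (hcop : Nat.Coprime u e) :
    ∃ t : ℝ, Good (u * t) (1 / 4) ∧ Good (e * t) (1 / 4) ∧ Good (((e + u : ℕ) : ℝ) * t) (1 / 4) := by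
  have hu0 : 0 < u := hu.pos
  have hv : Odd (e + u) := by
    rw [Nat.odd_add']
    exact ⟨fun _ => he, fun _ => hu⟩
  have key : (∃ x α β : ℝ, ∃ n k : ℤ, u * x = n + α ∧ e * x = k + β ∧ 0 ≤ α ∧ α ≤ 1 / 4 ∧
      1 / 2 ≤ β ∧ β ≤ 3 / 4 ∧ 3 / 4 ≤ α + β) →
      ∃ t : ℝ, Good (u * t) (1 / 4) ∧ Good (e * t) (1 / 4) ∧
        Good (((e + u : ℕ) : ℝ) * t) (1 / 4) := by
    rintro ⟨x, α, β, n, k, h1, h2, h3, h4, h5, h6, h7⟩
    refine ⟨1 / 2 + x, good_half hu n h1 (by rw [abs_of_nonneg h3]; exact h4), ?_, ?_⟩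
    · apply good_even he
      rw [h2]
      apply good_of_mem k <;> linarith
    · refine good_half hv (x := x) (y := α + β - 1) (n + k + 1) ?_ ?_
      · push_cast; linarith
      · rw [abs_le]; constructor <;> linarith
  rcases Nat.lt_or_ge 3 e with h4 | h4
  · -- spacing of `u x` when `e x = 3/4`
    apply key
    have he' : (0 : ℝ) < e := by exact_mod_cast he0
    have he4 : (4 : ℝ) ≤ e := by exact_mod_cast (by omega : 4 ≤ e)
    set i : ℤ := ⌈-(3 * u / 4 : ℝ)⌉ with hi
    obtain ⟨j, n, hj⟩ := bezout hcop i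
    have h1 : -(3 * u / 4 : ℝ) ≤ i := Int.le_ceil _
    have h2 : (i : ℝ) < -(3 * u / 4 : ℝ) + 1 := Int.ceil_lt_add_one _
    refine ⟨(3 / 4 + j) / e, (3 * u / 4 + i) / e, 3 / 4, n, j, ?_, ?_, ?_, ?_, by norm_num,
      by norm_num, ?_⟩
    · have h3 : ((u : ℤ) : ℝ) * j = i + n * e := by exact_mod_cast hj
      push_cast at h3
      field_simp
      linear_combination 4 * h3
    · field_simp
      ring
    · apply div_nonneg _ he'.le
      linarith
    · rw [div_le_iff₀ he']
      linarith
    · have : 0 ≤ (3 * u / 4 + i : ℝ) / e := by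
        apply div_nonneg _ he'.le
        linarith
      linarith
  · have he2 : e = 2 := by
      obtain ⟨k, hk⟩ := he
      omega
    subst he2
    rcases Nat.lt_or_ge u 4 with hu4 | hu4
    · have : u = 1 ∨ u = 3 := by
        obtain ⟨k, hk⟩ := hu
        omega
      rcases this with rfl | rfl
      · refine ⟨1 / 4, good_of_mem 0 ?_ ?_, good_of_mem 0 ?_ ?_, good_of_mem 0 ?_ ?_⟩ <;> norm_num
      · refine ⟨1 / 4, good_of_mem 0 ?_ ?_, good_of_mem 0 ?_ ?_, good_of_mem 1 ?_ ?_⟩ <;> norm_num
    · apply key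
      have hu' : (0 : ℝ) < u := by exact_mod_cast hu0
      have hu4' : (4 : ℝ) ≤ u := by exact_mod_cast hu4
      -- `u x = 1/4 + j`, `2 x = (1/2 + 2 j) / u`
      set i : ℤ := ⌈(u / 2 - 1 / 2 : ℝ)⌉ with hi
      obtain ⟨j, n, hj⟩ := bezout hcop.symm i
      have h1 : (u / 2 - 1 / 2 : ℝ) ≤ i := Int.le_ceil _
      have h2 : (i : ℝ) < (u / 2 - 1 / 2 : ℝ) + 1 := Int.ceil_lt_add_one _
      refine ⟨(1 / 4 + j) / u, 1 / 4, (1 / 2 + i) / u, j, n, ?_, ?_, by norm_num, le_refl _,
        ?_, ?_, ?_⟩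
      · field_simp
        ring
      · have h3 : ((2 : ℤ) : ℝ) * j = i + n * u := by exact_mod_cast hj
        push_cast at h3 ⊢
        field_simp
        linear_combination 8 * h3
      · rw [le_div_iff₀ hu']
        linarith
      · rw [div_le_iff₀ hu']
        linarith
      · have : 1 / 2 ≤ (1 / 2 + i : ℝ) / u := by
          rw [le_div_iff₀ hu']
          linarith
        linarith

/-- even speed smaller than the largest odd speed -/
theorem mid_case {u e v : ℕ} (hu : Odd u) (he : Even e) (hv : Odd v) (hu0 : 0 < u) (he0 : 0 < e)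
    (huv : u < v) (hev : e < v) (h1 : Nat.Coprime u v) (h2 : Nat.Coprime e v)
    (h3 : Nat.Coprime u e) :
    ∃ t : ℝ, Good (u * t) (1 / 4) ∧ Good (e * t) (1 / 4) ∧ Good (v * t) (1 / 4) := by
  by_cases hsum : e + u = v
  · subst hsum
    exact sum_case hu he he0 h3
  · have hv' : (0 : ℝ) < v := by exact_mod_cast hv.pos
    -- multiplier `w` with `w u ≡ e (mod v)`, `|w| < v / 2`
    obtain ⟨u', n', hu'⟩ := bezout h1 1
    -- u * u' = 1 + n' * v
    set w : ℤ := Int.bmod (e * u') v with hw
    have hv0 : 0 < v := by omega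
    have hwlt : 2 * w < v := by
      have := Int.bmod_lt (x := (e * u' : ℤ)) hv0
      omega
    have hwge : -(v : ℤ) ≤ 2 * w := by
      have := Int.le_bmod (x := (e * u' : ℤ)) hv0
      omega
    have hwdvd : (v : ℤ) ∣ w - e * u' := by
      have : (v : ℤ) ∣ (e * u' : ℤ) - Int.bmod (e * u') v := by
        exact Int.dvd_self_sub_bmod
      have h := (dvd_neg.2 this)
      rwa [neg_sub] at h
    obtain ⟨z, hz⟩ := hwdvd
    -- w * u ≡ e
    have hwu : w * u = e + v * (e * n' + z * u) := by
      linear_combination (u : ℤ) * hz + (e : ℤ) * hu'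
    -- |w| ≥ 2
    have hw0 : w ≠ 0 := by
      intro h
      rw [h, zero_mul] at hwu
      have h4 : (v : ℤ) ∣ e := ⟨-(e * n' + z * u), by linear_combination -hwu⟩
      have h5 := Int.le_of_dvd (by exact_mod_cast he0) h4
      omega
    have hw1 : w ≠ 1 := by
      intro h
      rw [h, one_mul] at hwu
      have h4 : (v : ℤ) ∣ (u : ℤ) - e := ⟨e * n' + z * u, by linear_combination hwu⟩
      have h5 : (u : ℤ) - e = 0 := by
        apply Int.eq_zero_of_abs_lt_dvd h4
        rw [abs_lt]
        constructor <;> omega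
      have h6 : u = e := by omega
      rw [h6] at hu
      exact (Nat.not_even_iff_odd.2 hu) he
    have hw2 : w ≠ -1 := by
      intro h
      rw [h] at hwu
      have h4 : (v : ℤ) ∣ (e : ℤ) + u := ⟨-(e * n' + z * u), by linear_combination -hwu⟩
      obtain ⟨q, hq⟩ := h4
      have hq1 : 0 < q := by
        by_contra hneg
        push Not at hneg
        have : (v : ℤ) * q ≤ 0 := mul_nonpos_of_nonneg_of_nonpos (by positivity) hneg
        omega
      have hq2 : q < 2 := by
        by_contra hneg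
        push Not at hneg
        have : (v : ℤ) * 2 ≤ v * q := mul_le_mul_of_nonneg_left hneg (by positivity)
        omega
      have hq3 : q = 1 := by omega
      rw [hq3] at hq
      apply hsum
      omega
    obtain ⟨W, hW⟩ : ∃ W : ℕ, W = w.natAbs := ⟨_, rfl⟩
    have hWabs : (W : ℤ) = |w| := by rw [hW]; exact Int.natCast_natAbs w
    have hW2 : 2 ≤ W := by omega
    have hWv : 2 * W ≤ v := by omega
    -- the index i
    obtain ⟨i, hi1, hi2, hi3, hi0⟩ : ∃ i : ℕ, v ≤ 4 * (W * i) ∧ 4 * (W * i) ≤ 3 * v ∧ 4 * i ≤ v ∧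
        0 < i := by
      refine ⟨(v + 4 * W - 1) / (4 * W), ?_, ?_, ?_, ?_⟩
      · have h4 := Nat.lt_div_mul_add (a := v + 4 * W - 1) (b := 4 * W) (by omega)
        have h5 : (v + 4 * W - 1) / (4 * W) * (4 * W) = 4 * (W * ((v + 4 * W - 1) / (4 * W))) := by
          ring
        omega
      · have h4 := Nat.div_mul_le_self (v + 4 * W - 1) (4 * W)
        have h5 : (v + 4 * W - 1) / (4 * W) * (4 * W) = 4 * (W * ((v + 4 * W - 1) / (4 * W))) := by
          ring
        omega
      · obtain ⟨k, hk⟩ := hv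
        have hle : (v + 4 * W - 1) / (4 * W) ≤ v / 4 := by
          rw [Nat.div_le_iff_le_mul_add_pred (by omega)]
          have h6 : v < 4 * (v / 4 + 1) := by omega
          have h7 : 1 ≤ v / 4 := by omega
          have h8 : 2 * (v / 4) ≤ W * (v / 4) := Nat.mul_le_mul_right _ hW2
          have h9 : 4 * W * (v / 4) = 4 * (W * (v / 4)) := by ring
          rw [h9]
          omega
        omega
      · apply Nat.div_pos
        · omega
        · omega
    obtain ⟨j, n, hj⟩ := bezout h1 i
    -- x = j / v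
    refine ⟨1 / 2 + j / v, ?_, ?_, ?_⟩
    · refine good_half hu (y := i / v) n ?_ ?_
      · have : ((u : ℤ) : ℝ) * j = i + n * v := by exact_mod_cast hj
        push_cast at this
        field_simp
        linear_combination this
      · rw [abs_of_nonneg (by positivity), div_le_iff₀ hv']
        have : (4 * i : ℝ) ≤ v := by exact_mod_cast hi3
        linarith
    · apply good_even he
      -- e j ≡ w i (mod v)
      have hej : (e : ℤ) * j = w * i + v * (w * n - (e * n' + z * u) * j) := by
        linear_combination w * hj - j * hwu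
      have e1 : (e : ℝ) * (j / v) = w * i / v + ((w * n - (e * n' + z * u) * j : ℤ) : ℝ) := by
        have : (e : ℝ) * j = w * i + v * ((w * n - (e * n' + z * u) * j : ℤ) : ℝ) := by
          exact_mod_cast hej
        field_simp
        linear_combination this
      rw [e1]
      apply Good.add_int
      have g : Good ((W * i : ℝ) / v) (1 / 4) := by
        have a1 : (v : ℝ) ≤ 4 * (W * i) := by exact_mod_cast hi1
        have a2 : 4 * (W * i : ℝ) ≤ 3 * v := by exact_mod_cast hi2
        apply good_of_mem 0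
        · push_cast
          rw [le_div_iff₀ hv']
          linarith
        · push_cast
          rw [div_le_iff₀ hv']
          linarith
      rcases abs_choice w with hc | hc
      · have : (w : ℝ) = W := by
          have : w = W := by rw [hWabs, hc]
          exact_mod_cast this
        rw [this]; exact g
      · have : (w : ℝ) = -W := by
          have : w = -W := by rw [hWabs, hc]; ring
          exact_mod_cast this
        rw [this]
        have h7 : (-(W : ℝ) * i / v) = -((W * i : ℝ) / v) := by ring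
        rw [h7]; exact g.neg
    · refine good_half hv (y := 0) j ?_ (by norm_num)
      field_simp
      ring

/-- one even speed, coprime -/
theorem even_case {u e v : ℕ} (hu : Odd u) (he : Even e) (hv : Odd v) (he0 : 0 < e)
    (huv : u < v) (h1 : Nat.Coprime u v) (h2 : Nat.Coprime e v)
    (h3 : Nat.Coprime u e) :
    ∃ t : ℝ, Good (u * t) (1 / 4) ∧ Good (e * t) (1 / 4) ∧ Good (v * t) (1 / 4) := by
  have hne : e ≠ v := by
    rintro rfl
    exact (Nat.not_even_iff_odd.2 hv) he
  rcases Nat.lt_or_gt_of_ne hne with h | h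
  · exact mid_case hu he hv hu.pos he0 huv h h1 h2 h3
  · have he' : (0 : ℝ) < e := by exact_mod_cast he0
    have hv1 : (v : ℝ) ≤ e := by exact_mod_cast h.le
    have hu1 : (u : ℝ) ≤ e := by exact_mod_cast (huv.trans h).le
    refine ⟨1 / 2 + 1 / (4 * e), good_half hu (y := u / (4 * e)) 0 ?_ ?_,
      good_even he ?_, good_half hv (y := v / (4 * e)) 0 ?_ ?_⟩
    · push_cast; ring
    · rw [abs_of_nonneg (by positivity), div_le_iff₀ (by positivity)]
      linarith
    · have : (e : ℝ) * (1 / (4 * e)) = 1 / 4 := by field_simp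
      rw [this]
      apply good_of_mem 0 <;> norm_num
    · push_cast; ring
    · rw [abs_of_nonneg (by positivity), div_le_iff₀ (by positivity)]
      linarith

theorem even_case' {u e v : ℕ} (hu : Odd u) (he : Even e) (hv : Odd v) (he0 : 0 < e)
    (huv : u ≠ v) (h1 : Nat.Coprime u v) (h2 : Nat.Coprime e v)
    (h3 : Nat.Coprime u e) :
    ∃ t : ℝ, Good (u * t) (1 / 4) ∧ Good (e * t) (1 / 4) ∧ Good (v * t) (1 / 4) := by
  rcases Nat.lt_or_gt_of_ne huv with h | h
  · exact even_case hu he hv he0 h h1 h2 h3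
  · obtain ⟨t, a, b, c⟩ := even_case hv he hu he0 h h1.symm h3.symm h2.symm
    exact ⟨t, c, b, a⟩

/-- pairwise coprime speeds -/
theorem pairwise_case {a b c : ℕ} (ha : 0 < a) (hb : 0 < b) (hc : 0 < c) (hab : a ≠ b)
    (hac : a ≠ c) (hbc : b ≠ c) (h1 : Nat.Coprime a b) (h2 : Nat.Coprime a c)
    (h3 : Nat.Coprime b c) :
    ∃ t : ℝ, Good (a * t) (1 / 4) ∧ Good (b * t) (1 / 4) ∧ Good (c * t) (1 / 4) := by
  rcases Nat.even_or_odd a with ea | oa
  · have ob : Odd b := by
      rw [← Nat.not_even_iff_odd]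
      intro eb
      have := Nat.dvd_gcd ea.two_dvd eb.two_dvd
      rw [Nat.Coprime] at h1; rw [h1] at this; omega
    have oc : Odd c := by
      rw [← Nat.not_even_iff_odd]
      intro ec
      have := Nat.dvd_gcd ea.two_dvd ec.two_dvd
      rw [Nat.Coprime] at h2; rw [h2] at this; omega
    obtain ⟨t, x, y, z⟩ := even_case' ob ea oc ha hbc h3 h2 h1.symm
    exact ⟨t, y, x, z⟩
  · rcases Nat.even_or_odd b with eb | ob
    · have oc : Odd c := by
        rw [← Nat.not_even_iff_odd]
        intro ec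
        have := Nat.dvd_gcd eb.two_dvd ec.two_dvd
        rw [Nat.Coprime] at h3; rw [h3] at this; omega
      exact even_case' oa eb oc hb hac h2 h3 h1
    · rcases Nat.even_or_odd c with ec | oc
      · obtain ⟨t, x, y, z⟩ := even_case' oa ec ob hc hab h1 h3.symm h2
        exact ⟨t, x, z, y⟩
      · refine ⟨1 / 2 + 0, good_half oa (y := 0) 0 ?_ ?_, good_half ob (y := 0) 0 ?_ ?_,
          good_half oc (y := 0) 0 ?_ ?_⟩ <;> norm_num

/-- the lonely runner theorem for four runners: the point `(1/4, 1/4, 1/4)` -/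
theorem pointD {a b c : ℕ} (ha : 0 < a) (hb : 0 < b) (hc : 0 < c) (hab : a ≠ b)
    (hac : a ≠ c) (hbc : b ≠ c) :
    ∃ t : ℝ, Good (a * t) (1 / 4) ∧ Good (b * t) (1 / 4) ∧ Good (c * t) (1 / 4) := by
  obtain ⟨g, a', b', c', hg, rfl, rfl, rfl, ha', hb', hc', hgcd⟩ := exists_scale ha hb hc
  apply scale3 hg
  have hab' : a' ≠ b' := fun h => hab (by rw [h])
  have hac' : a' ≠ c' := fun h => hac (by rw [h])
  have hbc' : b' ≠ c' := fun h => hbc (by rw [h])
  by_cases h1 : Nat.gcd a' b' = 1
  · by_cases h2 : Nat.gcd a' c' = 1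
    · by_cases h5 : Nat.gcd b' c' = 1
      · exact pairwise_case ha' hb' hc' hab' hac' hbc' h1 h2 h5
      · have h3 : 2 ≤ Nat.gcd b' c' := by
          have := Nat.gcd_pos_of_pos_left c' hb'
          omega
        have h4 : Nat.Coprime a' (Nat.gcd b' c') :=
          Nat.Coprime.coprime_dvd_right (Nat.gcd_dvd_left _ _) h1
        obtain ⟨t, h5, h6, h7⟩ := common hb' hc' hbc' h3 h4 (c₁ := 1 / 4) (c₂ := 1 / 4)
          (c₃ := 1 / 4) (by norm_num) (by norm_num) (by norm_num) (by norm_num) (by norm_num)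
        exact ⟨t, h7, h5, h6⟩
    · have h3 : 2 ≤ Nat.gcd a' c' := by
        have := Nat.gcd_pos_of_pos_left c' ha'
        omega
      have h4 : Nat.Coprime b' (Nat.gcd a' c') := by
        have : Nat.Coprime b' a' := (Nat.Coprime.symm h1)
        exact Nat.Coprime.coprime_dvd_right (Nat.gcd_dvd_left _ _) this
      obtain ⟨t, h5, h6, h7⟩ := common ha' hc' hac' h3 h4 (c₁ := 1 / 4) (c₂ := 1 / 4)
        (c₃ := 1 / 4) (by norm_num) (by norm_num) (by norm_num) (by norm_num) (by norm_num)
      exact ⟨t, h5, h7, h6⟩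
  · have h3 : 2 ≤ Nat.gcd a' b' := by
      have := Nat.gcd_pos_of_pos_left b' ha'
      omega
    have h4 : Nat.Coprime c' (Nat.gcd a' b') := by
      rw [Nat.coprime_comm]; exact hgcd
    exact common ha' hb' hab' h3 h4 (by norm_num) (by norm_num) (by norm_num) (by norm_num)
      (by norm_num)

end Pool.Agent.Q19.MLR
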