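import Mathlib

set_option autoImplicit false

namespace Pool.Agent.Q19.MLR

/-- A speed set of length `k`: a `k`-tuple of pairwise distinct positive integers. -/
def IsSpeed {k : ℕ} (s : Fin k → ℕ) : Prop := (∀ i, 0 < s i) ∧ Function.Injective s

/-- The box `(0,1/2]^k`. -/
def Box (k : ℕ) : Set (Fin k → ℝ) := {d | ∀ i, 0 < d i ∧ d i ≤ 1 / 2}

/-- `A s`: the set of `d` in the box for which some time `t` satisfies `‖s_i t‖ ≥ d_i` for
all `i`, where `‖x‖ ≥ c` is written out as `|x - m| ≥ c` for all integers `m`. -/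
def A {k : ℕ} (s : Fin k → ℕ) : Set (Fin k → ℝ) :=
  {d | d ∈ Box k ∧ ∃ t : ℝ, ∀ i, ∀ m : ℤ, d i ≤ |(s i : ℝ) * t - m|}

/-- The mixed loneliness parameter space. -/
def MLPS (k : ℕ) : Set (Fin k → ℝ) :=
  {d | d ∈ Box k ∧ ∀ s : Fin k → ℕ, IsSpeed s → d ∈ A s}

end Pool.Agent.Q19.MLR
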