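import Mathlib
import Pool.Agent.Q19.MLR.Defs

set_option autoImplicit false

namespace Pool.Agent.Q19.MLR

open Filter Topology

theorem speed0 (η : ℝ) (hη : 0 < η) (m : ℤ) : 1 / 2 - η ≤ |1 / 2 + η - m| := by
  rcases le_or_gt m 0 with h | h
  · have : (m : ℝ) ≤ 0 := by exact_mod_cast h
    rw [abs_of_nonneg (by linarith)]
    linarith
  · have : (1 : ℝ) ≤ m := by exact_mod_cast h
    have h2 := neg_abs_le (1 / 2 + η - m)
    linarith

theorem speed1 (a b : ℕ) (ha : 0 < a) (hb : 0 < b) (η : ℝ) (hη : 0 < η)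
    (h : (4 * a + 2 * b) * η ≤ 1) (m : ℤ) :
    2 * η ≤ |(b : ℝ) * ((1 / 2 + η) / a) - m| := by
  have ha' : (0 : ℝ) < a := by exact_mod_cast ha
  have hb' : (0 : ℝ) < b := by exact_mod_cast hb
  have e : (b : ℝ) * ((1 / 2 + η) / a) - m =
      ((((b : ℤ) - 2 * a * m : ℤ) : ℝ) + 2 * b * η) / (2 * a) := by
    push_cast
    field_simp
    ring
  rw [e, abs_div, abs_of_pos (by positivity : (0 : ℝ) < 2 * a), le_div_iff₀ (by positivity)]
  have hbη : 0 < (b : ℝ) * η := by positivity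
  have haη : 0 < (a : ℝ) * η := by positivity
  rcases lt_trichotomy ((b : ℤ) - 2 * a * m) 0 with hz | hz | hz
  · have : ((((b : ℤ) - 2 * a * m : ℤ)) : ℝ) ≤ -1 := by
      exact_mod_cast (by omega : (b : ℤ) - 2 * a * m ≤ -1)
    have h2 := neg_abs_le ((((b : ℤ) - 2 * a * m : ℤ) : ℝ) + 2 * b * η)
    nlinarith
  · rw [hz]
    have hm : 0 < m := by
      by_contra hm
      push Not at hm
      have h1 : (a : ℤ) * m ≤ 0 := mul_nonpos_of_nonneg_of_nonpos (by positivity) hm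
      have h2 : (0 : ℤ) < b := by exact_mod_cast hb
      nlinarith
    have h1 : (2 * a : ℤ) ≤ b := by
      have h2 : (a : ℤ) * 1 ≤ a * m := by
        apply mul_le_mul_of_nonneg_left (by omega) (by positivity)
      nlinarith
    have h3 : (2 * a : ℝ) ≤ b := by exact_mod_cast h1
    rw [Int.cast_zero, zero_add, abs_of_nonneg (by positivity)]
    nlinarith
  · have : (1 : ℝ) ≤ ((((b : ℤ) - 2 * a * m : ℤ)) : ℝ) := by
      exact_mod_cast (by omega : 1 ≤ (b : ℤ) - 2 * a * m)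
    have h2 := le_abs_self ((((b : ℤ) - 2 * a * m : ℤ) : ℝ) + 2 * b * η)
    nlinarith

theorem speed2 (a b : ℕ) (ha : 0 < a) (hb : 0 < b) (η : ℝ) (hη : Irrational η) :
    ∀ᶠ ε : ℝ in 𝓝[>] 0, ∀ m : ℤ, ε ≤ |(b : ℝ) * ((1 / 2 + η) / a) - m| := by
  set x := (b : ℝ) * ((1 / 2 + η) / a) with hx
  have hpos : 0 < |x - round x| := by
    rw [abs_pos]
    intro h0
    apply hη
    have ha' : (a : ℝ) ≠ 0 := by positivity
    have hb' : (b : ℝ) ≠ 0 := by positivity
    refine ⟨(round x : ℚ) * a / b - 1 / 2, ?_⟩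
    have h1 : x = round x := by linarith
    have h2 : (b : ℝ) * ((1 / 2 + η) / a) = (round x : ℝ) := by rw [← hx]; exact h1
    push_cast
    rw [← h2]
    field_simp
    ring
  filter_upwards [Ioo_mem_nhdsGT hpos] with ε hε m
  exact hε.2.le.trans (round_le x m)

theorem not_mem (k : ℕ) (d : Fin (k + 3) → ℝ) (η : ℝ) (hη : 0 < η)
    (h0 : d 0 = 1 / 2 - η) (h1 : d 1 = 2 * η) (h2 : 0 < d 2) : d ∉ MLPS (k + 3) := by
  intro hd
  obtain ⟨N, hN⟩ := exists_nat_gt (1 / d 2)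
  obtain ⟨j, q, hq, -, hjq⟩ := Real.exists_int_int_abs_mul_sub_le (3 * (1 / 2 + η))
    (Nat.succ_pos N)
  obtain ⟨q, rfl⟩ : ∃ p : ℕ, q = p := ⟨q.toNat, by omega⟩
  have hq' : 0 < q := by exact_mod_cast hq
  have hsmall : |(3 * q : ℝ) * (1 / 2 + η) - j| < d 2 := by
    have e : ((q : ℤ) : ℝ) * (3 * (1 / 2 + η)) - j = (3 * q : ℝ) * (1 / 2 + η) - j := by
      push_cast; ring
    rw [e] at hjq
    refine hjq.trans_lt ?_
    rw [div_lt_iff₀ (by positivity)]
    rw [div_lt_iff₀ h2] at hN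
    push_cast
    nlinarith
  -- the speeds 1, 2, 3q, 3q + 3, 3q + 4, ...
  let s : Fin (k + 3) → ℕ := fun i =>
    if (i : ℕ) = 0 then 1 else if (i : ℕ) = 1 then 2 else if (i : ℕ) = 2 then 3 * q else 3 * q + i
  have hs : IsSpeed s := by
    constructor
    · intro i
      simp only [s]
      split_ifs <;> omega
    · intro a b hab
      simp only [s] at hab
      apply Fin.ext
      split_ifs at hab <;> omega
  obtain ⟨-, t, ht⟩ := hd.2 s hs
  have t0 := ht 0
  have t1 := ht 1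
  have t2 := ht 2
  have v0 : ((0 : Fin (k + 3)) : ℕ) = 0 := rfl
  have v1 : ((1 : Fin (k + 3)) : ℕ) = 1 := by simp
  have v2 : ((2 : Fin (k + 3)) : ℕ) = 2 := Fin.val_two
  simp only [s, v0, v1, v2, h0, h1] at t0 t1 t2
  norm_num at t0 t1 t2
  -- t = n + 1/2 + u
  set n := round (t - 1 / 2) with hn
  set u := t - 1 / 2 - n with hu
  have hu1 : |u| ≤ 1 / 2 := abs_sub_round _
  have hu2 : |u| ≤ η := by
    have a1 := t0 n
    have a2 := t0 (n + 1)
    have e1 : t - (n : ℝ) = 1 / 2 + u := by rw [hu]; ring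
    have e2 : t - ((n + 1 : ℤ) : ℝ) = u - 1 / 2 := by push_cast; rw [hu]; ring
    rw [e1] at a1
    rw [e2] at a2
    rw [abs_le] at hu1 ⊢
    rw [abs_of_nonneg (by linarith)] at a1
    rw [abs_of_nonpos (by linarith)] at a2
    constructor <;> linarith
  have hu3 : η ≤ |u| := by
    have a1 := t1 (2 * n + 1)
    have e1 : 2 * t - ((2 * n + 1 : ℤ) : ℝ) = 2 * u := by push_cast; rw [hu]; ring
    rw [e1, abs_mul, abs_two] at a1
    linarith
  have hu4 : |u| = η := le_antisymm hu2 hu3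
  have ht3 : t = n + 1 / 2 + u := by rw [hu]; ring
  rcases (abs_eq hη.le).1 hu4 with h | h
  · have a1 := t2 (3 * q * n + j)
    have e1 : 3 * (q : ℝ) * t - ((3 * q * n + j : ℤ) : ℝ) = 3 * q * (1 / 2 + η) - j := by
      rw [ht3, h]; push_cast; ring
    rw [e1] at a1
    linarith
  · have a1 := t2 (3 * q * n + 3 * q - j)
    have e1 : 3 * (q : ℝ) * t - ((3 * q * n + 3 * q - j : ℤ) : ℝ) =
        -(3 * q * (1 / 2 + η) - j) := by
      rw [ht3, h]; push_cast; ring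
    rw [e1, abs_neg] at a1
    linarith

theorem not_determined (k : ℕ) (F : Set (Fin (k + 3) → ℕ)) (hF : F.Finite)
    (hS : ∀ s ∈ F, IsSpeed s) :
    ∃ d : Fin (k + 3) → ℝ, d ∈ Box (k + 3) ∧ (∀ s ∈ F, d ∈ A s) ∧ d ∉ MLPS (k + 3) := by
  -- choose the size of η
  have hc : ∀ᶠ c : ℝ in 𝓝[>] 0, ∀ s ∈ F, (4 * s 0 + 2 * s 1) * c ≤ 1 := by
    rw [eventually_all_finite hF]
    intro s hs
    have hpos : (0 : ℝ) < 1 / (4 * s 0 + 2 * s 1) := by
      have := (hS s hs).1 0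
      positivity
    filter_upwards [Ioo_mem_nhdsGT hpos] with c hc
    have := hc.2.le
    rw [le_div_iff₀ (by have := (hS s hs).1 0; positivity)] at this
    linarith
  obtain ⟨c, hc, hc0, hc1⟩ := (hc.and (Ioo_mem_nhdsGT (by norm_num : (0 : ℝ) < 1 / 4))).exists
  obtain ⟨η, hirr, hη0, hηc⟩ := exists_irrational_btwn hc0
  have hε : ∀ᶠ ε : ℝ in 𝓝[>] 0, ∀ s ∈ F, ∀ i : Fin (k + 3), ∀ m : ℤ,
      ε ≤ |(s i : ℝ) * ((1 / 2 + η) / s 0) - m| := by
    rw [eventually_all_finite hF]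
    intro s hs
    rw [eventually_all]
    intro i
    exact speed2 (s 0) (s i) ((hS s hs).1 0) ((hS s hs).1 i) η hirr
  obtain ⟨ε, hε, hε0, hε1⟩ := (hε.and (Ioo_mem_nhdsGT (by norm_num : (0 : ℝ) < 1 / 2))).exists
  let d : Fin (k + 3) → ℝ := fun i =>
    if (i : ℕ) = 0 then 1 / 2 - η else if (i : ℕ) = 1 then 2 * η else ε
  have hbox : d ∈ Box (k + 3) := by
    intro i
    simp only [d]
    split_ifs <;> constructor <;> linarith
  refine ⟨d, hbox, ?_, ?_⟩
  · intro s hs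
    refine ⟨hbox, (1 / 2 + η) / s 0, fun i m => ?_⟩
    simp only [d]
    split_ifs with h0 h1
    · have : i = 0 := Fin.ext h0
      subst this
      have h3 : (s 0 : ℝ) ≠ 0 := by
        have := (hS s hs).1 0
        positivity
      rw [mul_div_cancel₀ _ h3]
      exact speed0 η hη0 m
    · have : i = 1 := Fin.ext (by rw [h1]; simp)
      subst this
      refine speed1 (s 0) (s 1) ((hS s hs).1 0) ((hS s hs).1 1) η hη0 ?_ m
      have h4 := hc s hs
      have h5 : (4 * (s 0 : ℝ) + 2 * s 1) * η ≤ (4 * (s 0 : ℝ) + 2 * s 1) * c :=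
        mul_le_mul_of_nonneg_left hηc.le (by positivity)
      linarith
    · exact hε s hs i m
  · refine not_mem k d η hη0 ?_ ?_ ?_
    · simp [d]
    · simp [d]
    · simp [d]
      exact hε0

end Pool.Agent.Q19.MLR
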