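import Mathlib
import Pool.Agent.Q19.MLR.Defs
import Pool.Agent.Q19.MLR.D

set_option autoImplicit false

namespace Pool.Agent.Q19.MLR

open MeasureTheory Topology

/-- The upper boundary of `MLPS k`: the elements that are maximal for the coordinatewise order. -/
def UB (k : ℕ) : Set (Fin k → ℝ) :=
  {d | d ∈ MLPS k ∧ ∀ e ∈ MLPS k, (∀ i, d i ≤ e i) → e = d}

/-- The diagonal point `(1/(k+1), …, 1/(k+1))`. -/
noncomputable def diagPt (k : ℕ) : Fin k → ℝ := fun _ => 1 / ((k : ℝ) + 1)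

/-- the union bound -/
theorem union_bound {k : ℕ} (s : Fin k → ℕ) (hs : ∀ i, 0 < s i) (d : Fin k → ℝ)
    (hd : ∀ i, 0 ≤ d i) (hsum : ∑ i, d i < 1 / 2) :
    ∃ t : ℝ, ∀ i, Good (s i * t) (d i) := by
  let B : Fin k → Set UnitAddCircle := fun i => (fun y : UnitAddCircle => (s i) • y) ⁻¹'
    (Metric.closedBall 0 (d i))
  have hB : ∀ i, volume (B i) ≤ ENNReal.ofReal (2 * d i) := by
    intro i
    have hmp : MeasurePreserving (fun y : UnitAddCircle => (s i) • y) volume volume := by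
      rcases Nat.lt_or_ge 1 (s i) with h | h
      · exact (AddCircle.ergodic_nsmul h).toMeasurePreserving
      · have : s i = 1 := by have := hs i; omega
        rw [this]
        simp only [one_smul]
        exact MeasurePreserving.id (volume : Measure UnitAddCircle)
    have : volume (B i) = volume (Metric.closedBall (0 : UnitAddCircle) (d i)) :=
      hmp.measure_preimage Metric.isClosed_closedBall.measurableSet.nullMeasurableSet
    rw [this, AddCircle.volume_closedBall]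
    exact ENNReal.ofReal_le_ofReal (min_le_right _ _)
  have hU : volume (⋃ i, B i) < volume (Set.univ : Set UnitAddCircle) := by
    calc volume (⋃ i, B i) ≤ ∑ i, volume (B i) := measure_iUnion_fintype_le _ _
      _ ≤ ∑ i, ENNReal.ofReal (2 * d i) := Finset.sum_le_sum fun i _ => hB i
      _ = ENNReal.ofReal (∑ i, 2 * d i) := by
        rw [ENNReal.ofReal_sum_of_nonneg]
        intro i _
        have := hd i
        positivity
      _ < ENNReal.ofReal 1 := by
        rw [ENNReal.ofReal_lt_ofReal_iff (by norm_num), ← Finset.mul_sum]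
        linarith
      _ = volume (Set.univ : Set UnitAddCircle) := by
        rw [AddCircle.measure_univ]
  have hne : ∃ y : UnitAddCircle, y ∉ ⋃ i, B i := by
    by_contra hcon
    push Not at hcon
    have : (⋃ i, B i) = Set.univ := Set.eq_univ_of_forall hcon
    rw [this] at hU
    exact lt_irrefl _ hU
  obtain ⟨y, hy⟩ := hne
  obtain ⟨t, rfl⟩ := QuotientAddGroup.mk_surjective y
  refine ⟨t, fun i m => ?_⟩
  have h1 : ¬ ((t : UnitAddCircle) ∈ B i) := fun h => hy (Set.mem_iUnion.2 ⟨i, h⟩)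
  simp only [B, Set.mem_preimage, Metric.mem_closedBall, dist_zero_right, not_le] at h1
  have h2 : (s i) • (t : UnitAddCircle) = ((s i * t : ℝ) : UnitAddCircle) := by
    rw [← AddCircle.coe_nsmul, nsmul_eq_mul]
  rw [h2, UnitAddCircle.norm_eq] at h1
  exact h1.le.trans (round_le _ m)

theorem mem_of_sum {k : ℕ} (d : Fin k → ℝ) (hd : ∀ i, 0 < d i) (hsum : ∑ i, d i < 1 / 2) :
    d ∈ MLPS k := by
  have hbox : d ∈ Box k := by
    intro i
    refine ⟨hd i, ?_⟩
    have := Finset.single_le_sum (f := d) (fun j _ => (hd j).le) (Finset.mem_univ i)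
    linarith
  exact ⟨hbox, fun s hs => ⟨hbox, union_bound s hs.1 d (fun i => (hd i).le) hsum⟩⟩

/-- every point of `MLPS k` lies below a point of the upper boundary -/
theorem exists_ub {k : ℕ} {p : Fin k → ℝ} (hp : p ∈ MLPS k) :
    ∃ e ∈ UB k, ∀ i, p i ≤ e i := by
  -- the slices
  let C : (Fin k → ℕ) → Set (Fin k → ℝ) := fun s =>
    Prod.snd '' {q : (Set.Icc (0 : ℝ) 1) × (Fin k → ℝ) | ∀ i, ∀ m : ℤ,
      q.2 i ≤ |(s i : ℝ) * q.1 - m|}
  have hC : ∀ s, IsClosed (C s) := by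
    intro s
    apply isClosedMap_snd_of_compactSpace
    simp only [Set.ofPred_forall]
    refine isClosed_iInter fun i => isClosed_iInter fun m => ?_
    apply isClosed_le
    · fun_prop
    · fun_prop
  have hCmem : ∀ s e, e ∈ C s ↔ ∃ t : ℝ, ∀ i, ∀ m : ℤ, e i ≤ |(s i : ℝ) * t - m| := by
    intro s e
    constructor
    · rintro ⟨⟨t, e'⟩, h, rfl⟩
      exact ⟨t, h⟩
    · rintro ⟨t, ht⟩
      refine ⟨(⟨Int.fract t, Int.fract_nonneg t, (Int.fract_lt_one t).le⟩, e), ?_, rfl⟩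
      intro i m
      have h := ht i (m + s i * ⌊t⌋)
      have e1 : (s i : ℝ) * t - ((m + s i * ⌊t⌋ : ℤ) : ℝ) = s i * Int.fract t - m := by
        push_cast
        rw [← Int.self_sub_floor]
        ring
      rw [e1] at h
      exact h
  let K : Set (Fin k → ℝ) := Set.Icc p (fun _ => 1 / 2) ∩ ⋂ s : {s : Fin k → ℕ // IsSpeed s}, C s
  have hK : IsCompact K := isCompact_Icc.inter_right (isClosed_iInter fun s => hC s)
  have hKmem : ∀ e, e ∈ K ↔ e ∈ MLPS k ∧ ∀ i, p i ≤ e i := by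
    intro e
    constructor
    · rintro ⟨⟨h1, h2⟩, h3⟩
      have hbox : e ∈ Box k := fun i => ⟨lt_of_lt_of_le (hp.1 i).1 (h1 i), h2 i⟩
      refine ⟨⟨hbox, fun s hs => ⟨hbox, ?_⟩⟩, h1⟩
      exact (hCmem s e).1 (Set.mem_iInter.1 h3 ⟨s, hs⟩)
    · rintro ⟨h1, h2⟩
      refine ⟨⟨h2, fun i => (h1.1 i).2⟩, Set.mem_iInter.2 fun s => ?_⟩
      exact (hCmem s e).2 (h1.2 s s.2).2
  have hne : K.Nonempty := ⟨p, (hKmem p).2 ⟨hp, fun _ => le_refl _⟩⟩
  obtain ⟨e, heK, hmax⟩ := hK.exists_isMaxOn hne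
    (f := fun e : Fin k → ℝ => ∑ i, e i) (by fun_prop)
  have he := (hKmem e).1 heK
  refine ⟨e, ⟨he.1, fun e' he' hle => ?_⟩, he.2⟩
  have h1 : e' ∈ K := (hKmem e').2 ⟨he', fun i => (he.2 i).trans (hle i)⟩
  have h2 : ∑ i, e' i ≤ ∑ i, e i := hmax h1
  have h3 : ∑ i, e i = ∑ i, e' i := le_antisymm (Finset.sum_le_sum fun i _ => hle i) h2
  funext i
  have h4 := (Finset.sum_eq_sum_iff_of_le (s := Finset.univ) (f := e) (g := e')
    (fun i _ => hle i)).1 h3 i (Finset.mem_univ i)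
  exact h4.symm

theorem mlps_perm {k : ℕ} {d : Fin k → ℝ} (hd : d ∈ MLPS k) (σ : Equiv.Perm (Fin k)) :
    (fun i => d (σ i)) ∈ MLPS k := by
  have hbox : (fun i => d (σ i)) ∈ Box k := fun i => hd.1 (σ i)
  refine ⟨hbox, fun s hs => ⟨hbox, ?_⟩⟩
  have hs' : IsSpeed (fun i => s (σ.symm i)) :=
    ⟨fun i => hs.1 _, hs.2.comp σ.symm.injective⟩
  obtain ⟨-, t, ht⟩ := hd.2 _ hs'
  refine ⟨t, fun i m => ?_⟩
  have := ht (σ i) m
  simpa using this

theorem ub_perm {k : ℕ} {d : Fin k → ℝ} (hd : d ∈ UB k) (σ : Equiv.Perm (Fin k)) :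
    (fun i => d (σ i)) ∈ UB k := by
  refine ⟨mlps_perm hd.1 σ, fun e he hle => ?_⟩
  have h1 := mlps_perm he σ.symm
  have h2 := hd.2 _ h1 (fun i => by
    have := hle (σ.symm i)
    simpa using this)
  funext i
  have := congrFun h2 (σ i)
  simpa using this

/-- the average of the cyclic permutations of an upper boundary point -/
theorem avg_mem {e : Fin 3 → ℝ} (he : e ∈ UB 3) (hne : e ≠ diagPt 3) :
    (fun _ => (∑ i, e i) / 3 : Fin 3 → ℝ) ∈ convexHull ℝ (UB 3 \ {diagPt 3}) := by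
  have hmem : ∀ j : Fin 3, (fun i => e (i + j)) ∈ convexHull ℝ (UB 3 \ {diagPt 3}) := by
    intro j
    apply subset_convexHull
    refine ⟨ub_perm he (Equiv.addRight j), ?_⟩
    intro h
    rw [Set.mem_singleton_iff] at h
    apply hne
    funext i
    have := congrFun h (i - j)
    simpa [diagPt] using this
  have h1 := (convex_convexHull ℝ (UB 3 \ {diagPt 3})).sum_mem (t := Finset.univ)
    (w := fun _ : Fin 3 => (1 / 3 : ℝ)) (z := fun j : Fin 3 => fun i => e (i + j))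
    (fun _ _ => by norm_num) (by simp) (fun j _ => hmem j)
  convert h1 using 1
  funext i
  rw [Finset.sum_apply]
  simp only [Pi.smul_apply, smul_eq_mul]
  rw [← Finset.mul_sum]
  have h2 : ∑ j, e (i + j) = ∑ j, e j := Equiv.sum_comp (Equiv.addLeft i) e
  rw [h2]
  ring

theorem p_mem : (![7 / 20, 1 / 5, 1 / 5] : Fin 3 → ℝ) ∈ MLPS 3 := by
  have hbox : (![7 / 20, 1 / 5, 1 / 5] : Fin 3 → ℝ) ∈ Box 3 := by
    intro i
    fin_cases i <;> simp <;> norm_num
  refine ⟨hbox, fun s hs => ⟨hbox, ?_⟩⟩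
  obtain ⟨t, h0, h1, h2⟩ := pointP (hs.1 0) (hs.1 1) (hs.1 2)
    (fun h => by have := hs.2 h; exact absurd this (by decide))
    (fun h => by have := hs.2 h; exact absurd this (by decide))
    (fun h => by have := hs.2 h; exact absurd this (by decide))
  refine ⟨t, fun i => ?_⟩
  fin_cases i
  · exact h0
  · exact h1
  · exact h2

theorem diag_mem : diagPt 3 ∈ MLPS 3 := by
  have hbox : diagPt 3 ∈ Box 3 := by
    intro i
    simp only [diagPt]
    norm_num
  refine ⟨hbox, fun s hs => ⟨hbox, ?_⟩⟩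
  obtain ⟨t, h0, h1, h2⟩ := pointD (hs.1 0) (hs.1 1) (hs.1 2)
    (fun h => by have := hs.2 h; exact absurd this (by decide))
    (fun h => by have := hs.2 h; exact absurd this (by decide))
    (fun h => by have := hs.2 h; exact absurd this (by decide))
  have hq : ∀ i, diagPt 3 i = 1 / 4 := by intro i; simp only [diagPt]; norm_num
  refine ⟨t, fun i => ?_⟩
  rw [hq]
  fin_cases i
  · exact h0
  · exact h1
  · exact h2

/-- speeds `(1, 2, 3)` and `(1, 3, 2)` -/
theorem two_le {f : Fin 3 → ℝ} (hf : f ∈ MLPS 3) (h0 : 1 / 4 ≤ f 0) :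
    f 1 ≤ 1 - 2 * f 0 ∧ f 2 ≤ 1 - 2 * f 0 := by
  have key : ∀ t : ℝ, (∀ m : ℤ, f 0 ≤ |t - m|) → ∃ m : ℤ, |2 * t - m| ≤ 1 - 2 * f 0 := by
    intro t ht
    refine ⟨2 * ⌊t⌋ + 1, ?_⟩
    have h1 := ht ⌊t⌋
    have h2 := ht (⌊t⌋ + 1)
    have h3 : (⌊t⌋ : ℝ) ≤ t := Int.floor_le t
    have h4 : t < ⌊t⌋ + 1 := Int.lt_floor_add_one t
    rw [abs_of_nonneg (by linarith)] at h1
    rw [abs_of_nonpos (by push_cast; linarith)] at h2
    push_cast at h2 ⊢
    rw [abs_le]
    constructor <;> linarith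
  constructor
  · obtain ⟨-, t, ht⟩ := hf.2 ![1, 2, 3] ⟨by decide, by decide⟩
    have t0 := ht 0
    have t1 := ht 1
    simp only [Matrix.cons_val_zero, Matrix.cons_val_one, Nat.cast_one, one_mul,
      Nat.cast_ofNat] at t0 t1
    obtain ⟨m, hm⟩ := key t t0
    exact (t1 m).trans hm
  · obtain ⟨-, t, ht⟩ := hf.2 ![1, 3, 2] ⟨by decide, by decide⟩
    have t0 := ht 0
    have t1 := ht 2
    simp only [Matrix.cons_val_zero, Matrix.cons_val, Nat.cast_one, one_mul,
      Nat.cast_ofNat] at t0 t1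
    obtain ⟨m, hm⟩ := key t t0
    exact (t1 m).trans hm

theorem main : diagPt 3 ∈ convexHull ℝ (UB 3 \ {diagPt 3}) := by
  have hq : ∀ i, diagPt 3 i = 1 / 4 := by intro i; simp only [diagPt]; norm_num
  obtain ⟨e, he, hpe⟩ := exists_ub p_mem
  have e0 : 7 / 20 ≤ e 0 := hpe 0
  have e1 : 1 / 5 ≤ e 1 := hpe 1
  have e2 : 1 / 5 ≤ e 2 := hpe 2
  have hene : e ≠ diagPt 3 := by
    intro h
    rw [h, hq] at e0
    norm_num at e0
  have hqm : (![9 / 20, 1 / 50, 1 / 50] : Fin 3 → ℝ) ∈ MLPS 3 := by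
    apply mem_of_sum
    · intro i
      fin_cases i <;> simp
    · rw [Fin.sum_univ_three]
      simp
      norm_num
  obtain ⟨f, hf, hqf⟩ := exists_ub hqm
  have f0 : 9 / 20 ≤ f 0 := hqf 0
  have hfne : f ≠ diagPt 3 := by
    intro h
    rw [h, hq] at f0
    norm_num at f0
  obtain ⟨f1, f2⟩ := two_le hf.1 (by linarith)
  have f3 : f 0 ≤ 1 / 2 := (hf.1.1 0).2
  have hE := avg_mem he hene
  have hF := avg_mem hf hfne
  rw [Fin.sum_univ_three] at hE hF
  let φ : ℝ →ₗ[ℝ] (Fin 3 → ℝ) := LinearMap.pi fun _ => LinearMap.id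
  have hconv : Convex ℝ (φ ⁻¹' convexHull ℝ (UB 3 \ {diagPt 3})) :=
    (convex_convexHull ℝ _).linear_preimage φ
  have hord := hconv.ordConnected
  have h3 := hord.out (x := (f 0 + f 1 + f 2) / 3) (y := (e 0 + e 1 + e 2) / 3)
    (by exact hF) (by exact hE) (a := 1 / 4) ⟨by linarith, by linarith⟩
  have h4 : φ (1 / 4) = diagPt 3 := by
    funext i
    rw [hq]
    rfl
  rw [Set.mem_preimage, h4] at h3
  exact h3

end Pool.Agent.Q19.MLR
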